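import Pool.Agent.MWI.Defs

/-!
# The pentagon N2E (statements of the rows of squad MWI, block E)

Problem MP_23468a_al.  GOAL `N2eStmt`: let `ModF β`, `Iso3 β` and the small hypotheses `OS`, `O1`,
`O2`, `Lm`, `W ~ W yⁿ`.  Then some word equivalent to `W = ww P Q (range m) = P y z_0 … z_(m-1) y Q`
does not have the main block `y z_(h 0) … z_(h (m-1)) y` (letters `y` right of the main block are
allowed: `Thr`).  Indirect proof: structure `HyE`.  Three names `0, 3, 6`, seven copies of the chain,
two patterns `s` (`MM`), two namings `e`.  `Fct P Q m s e w M Y` describes the words `w` in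
`SS β P Q m s e`: `w = pl (stL P) ++ (M ++ (pr (stQ Q) ++ Y))`, main block `M` (every name twice,
every `z` once), `Y` = the right places of the copy `3` with names inserted.

CONVENTIONS.  All rows can be started at once; the hypotheses of your theorem are the rows in the
column uses, in this order.  `RR.sub`, `RR.filter`, `RR.append`, `RR.symm`, `RR.content`, `iso_ab`,
`iso_aba`, `iso_nil` are in Helper2_MV/Keep.lean; `gaml`, `le_gaml`, `gaml_keep`, `RR_gaml`, `pent` in
MWF/Defs.lean; `Pool.Agent.MVD.H10.lin : LinStmt` (words without repetitions are isoterms) in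
Helper10_MVD/LIN.lean; Helper11_MWD/FIN3.lean has all proved rows of the squad MVD with `Iso3` only.
-/

namespace Pool.Agent.MWI

open Pool.Agent.Helper14_MV Pool.Agent.Helper2_MV Pool.Agent.MWF

/-! ## Words -/

/-- SKE. The skeleton.  (`P ++ Q` is an arrangement of `D`.)
PROOF. `w0 = pl P ++ (zz D ++ pr Q)`.  The letters `t_i` occur once: `v.filter t` = `w0.filter t` (LIN;
the content is kept by `RR.content` in both directions).  Let `i` be in `D`.  In `w0` the letter
`z_i` occurs twice with `t_i` between: project to `{z_i, t_i}`: `[z, t, z]`, so the same for `v`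
(`iso_aba`): `z_i` occurs twice in `v`, once before `t_i` and once behind.  For `j ≠ i` project to
`{z_i, t_j}`: if `t_j` stands between the two `z_i` in `w0`, the projection is `[z, t, z]`, so it is the
same for `v`: one `z_i` before `t_j`.  Otherwise the projection of `v` is not `[z, t, z]` (`iso_aba`,
symmetric): `0` or `2` letters `z_i` before `t_j`; if `t_j` is before `t_i` in `w0` (hence in `v`) then
at most `1`, so `0`; if `t_j` is behind `t_i` then at least `1`, so `2`.  So for every letter `z_i` and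
every `t_j` the number of `z_i` before `t_j` is the same in `v` and `w0`.  A convenient form of the
rest: first prove the lemma: if `v`, `w0` have the same letters `t` (each once) in the same order and
for every other letter `c` and every `t` the same numbers of `c` before `t`, and the same total
numbers, then `v` is obtained from `w0` by permuting the blocks between consecutive `t` (induction on
the number of letters `t`).  The blocks of `w0` are `[z_i]` for the places and the main block. -/
def SkeStmt : Prop := ∀ β : FIC, Iso3 β → ∀ P Q D v : List ℕ, D.Nodup → (P ++ Q).Perm D →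
  RR β (pl P ++ (zz D ++ pr Q)) v → ∃ D', D'.Perm D ∧ v = pl P ++ (zz D' ++ pr Q)

/-- DCN. Decomposition of a word with names.
PROOF. For `i` in `P` and `j < 3` project the hypothesis to `{3 j, t_i}`: the projection of `w` is
equivalent to `[t_i, 3j, 3j]`, so by `O1` (rename: `RR.sub`, `t_i ↦ 1`, `3 j ↦ 0`) the projection of
`w` begins with `t_i`: no name `3 j` stands before `t_i` in `w`.  So no name stands before the last
`t_i`, `i ∈ P`, and `w = pl P ++ w1` (compare with `w.filter nz`).  Let `M` be the part of `w1` before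
the first letter `t` (everything if there is none) and `Y` the rest.  Then `M.filter nz = zz D` and
`Y.filter nz = pr Q` (split `zz D ++ pr Q` at the first `t`).  `2 ≤ M.count (3 j)`: if `Q = q :: Q'`
then the head of `Y` is `t_q`; project to `{3 j, t_q}`: `[3j, 3j, t_q]`, by `O2` the projection of `w`
begins with `3j, 3j`.  If `Q = []` then `Y = []`; project to `3 j` only: `RR β v' [3j, 3j]`; append a
new letter and use `O2`. -/
def DcnStmt : Prop := ∀ β : FIC, Iso3 β → O1 β → O2 β → ∀ P Q D w : List ℕ, D.Nodup →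
  (P ++ Q).Perm D → (∀ c ∈ w, c % 3 = 0 → c = 0 ∨ c = 3 ∨ c = 6) →
  w.filter nz = pl P ++ (zz D ++ pr Q) →
  (∀ j < 3, RR β (w.filter (fun c => decide (c = 3 * j ∨ c % 3 = 1)))
    (ts P ++ 3 * j :: 3 * j :: ts Q)) →
  ∃ M Y : List ℕ, w = pl P ++ (M ++ Y) ∧ (∀ c ∈ M, c % 3 ≠ 1) ∧ (∀ a l, Y = a :: l → a % 3 = 1) ∧
    M.filter nz = zz D ∧ Y.filter nz = pr Q ∧ ∀ j < 3, 2 ≤ M.count (3 * j)

/-- PJS. Projections of the starred words.
PROOF. `List.flatMap` of appends and maps; `(7 i + k') % 7 = k'`, `(7 i + k') / 7 = i` for `k' < 7`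
(`omega`).  The lists are concatenations of the copies, only the copy `k` survives. -/
def PjsStmt : Prop := ∀ (P Q : List ℕ) (m j k : ℕ), k < 7 →
  (pl (stL P)).flatMap (pj j k) = pl P ∧
  (pr (stQ Q)).flatMap (pj j k) = (if k = 3 then [] else pr Q) ∧
  (pr (st3 Q)).flatMap (pj j k) = (if k = 3 then pr Q else []) ∧
  (∀ k' < 7, (cc m k').flatMap (pj j k) = if k' = k then zz (List.range m) else []) ∧
  ((P ++ Q).Perm (List.range m) → (stL P ++ (stQ Q ++ st3 Q)).Perm (idx m)) ∧ (idx m).Nodup ∧
  ∀ E, E ∈ idx m ↔ E < 7 * m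

/-- MMF. The main blocks of the words of the pentagon.
PROOF. `idx m` is the concatenation of `ci m 0, …, ci m 6`; unfold `MM`; the three names are
`0, 3, 6` in some order.  `U` = the letters of `MM` between the two letters `nm e i`. -/
def MmfStmt : Prop := ∀ (m : ℕ) (s e : Bool),
  (MM m s (nm e 0) (nm e 1) (nm e 2)).Perm (0 :: 0 :: 3 :: 3 :: 6 :: 6 :: zz (idx m)) ∧
  (MM m s (nm e 0) (nm e 1) (nm e 2)).filter nz = zz (idx m) ∧
  (∀ j < 3, nm e (rl e j) = 3 * j ∧ rl e j < 3 ∧ ∀ k < 7,
    (cv s (rl e j) k = true → (MM m s (nm e 0) (nm e 1) (nm e 2)).flatMap (pj j k) =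
      0 :: (zz (List.range m) ++ [0])) ∧
    (cv s (rl e j) k = false →
      (MM m s (nm e 0) (nm e 1) (nm e 2)).flatMap (pj j k) = 0 :: 0 :: zz (List.range m) ∨
      (MM m s (nm e 0) (nm e 1) (nm e 2)).flatMap (pj j k) = zz (List.range m) ++ [0, 0])) ∧
  ∀ i < 3, ∃ U0 U U1 : List ℕ,
    MM m s (nm e 0) (nm e 1) (nm e 2) = U0 ++ nm e i :: (U ++ nm e i :: U1) ∧
    nm e i ∉ U ∧ nm e i ∉ U0 ∧ nm e i ∉ U1 ∧
    (∀ i' < 3, i' ≠ i → U.count (nm e i') = 1) ∧ (U.filter nz).length = 4 * m ∧
    (∀ k < 7, cv s i k = true → ∀ E ∈ ci m k, 3 * E + 2 ∈ U) ∧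
    (∀ E, 3 * E + 2 ∈ U → ∃ k < 7, cv s i k = true ∧ E ∈ ci m k)

/-- CVF. The coverings.
PROOF. `decide` on all cases (`interval_cases`). -/
def CvfStmt : Prop :=
  (∀ s : Bool, ∀ i < 3, cv s i 3 = true ∧ ∃ k < 7, k ≠ 3 ∧ cv s i k = true) ∧
  (∀ s : Bool, ∀ k < 7, ∃ i < 3, cv s i k = true) ∧
  (∀ s : Bool, ∀ i < 3, ∀ i' < 3, i ≠ i' → ∃ k < 7, cv s i k = true ∧ cv s i' k = false) ∧
  (∀ e : Bool, ∀ j < 3, rl e j < 3 ∧ ∀ j' < 3, rl e j = rl e j' → j = j') ∧
  (∀ s s' e e' : Bool, (∀ j < 3, ∀ k < 7, cv s (rl e j) k = true → cv s' (rl e' j) k = true) →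
    s = s' ∧ e = e')

/-! ## The sets `SS` -/

/-- VIN. `β` preserves `SS`.
PROOF. `RR.content` (both directions) for `nam`; `RR.filter` for `skl` and `one`; `RR.sub` (the words
`w.flatMap (pj j k)`) and `RR.append` for `cov`. -/
def VinStmt : Prop := ∀ (β : FIC), Iso3 β → ∀ (P Q : List ℕ) (m : ℕ) (s e : Bool) (w w' : List ℕ),
  SS β P Q m s e w → RR β w w' → SS β P Q m s e w'

/-- THX. `Inc` implies `Thr`.
PROOF. Let `W = ww P Q (range m)`, `W ~ W 0^n` (`ee`, `n ≥ 1`), so `W ~ W 0^(n l)` for all `l`.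
(1) `Q ≠ []`: `th` for `W 0^n`: `W 0^n = pl P ++ (0 :: (zz h ++ 0 :: C))` where `C` is empty or begins
with a `t`; compare: `zz (range m) ++ 0 :: (pr Q ++ 0^n) = zz h ++ 0 :: C` (the letters of `zz` are
`≡ 2`), so `C = pr Q ++ 0^n`, not empty, begins with a `t`, so `Q ≠ []`.  (2) Let
`v 0^a ~ W 0^b`; choose `c ≥ 0` with `b + c = n l`: `v 0^(a+c) ~ W 0^(n l) ~ W`, so
`v 0^(a+c) = pl P ++ (0 :: (zz h ++ 0 :: C))` by `th`; `C.filter nz = pr Q` is not empty, so `C` begins
with a `t` and contains a letter `≡ 1`, the last `a + c` letters of the word are `0`, so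
`C = C' ++ 0^(a+c)` with `C'` not empty, beginning with the same `t`: `Thr P Q m v`. -/
def ThxStmt : Prop := ∀ (β : FIC) (P Q : List ℕ) (m : ℕ), HyE β P Q m → Q ≠ [] ∧
  ∀ v, Inc β P Q m v → Thr P Q m v

/-- FC1. The facts about the words in `SS`, without `nc`.
PROOF. PJS gives `(stL P ++ (stQ Q ++ st3 Q)).Perm (idx m)`.  SKE for `w.filter nz` (with
`D = idx m`), then DCN: `w = pl (stL P) ++ (M ++ Y0)`, `M.filter nz = zz D'`, `D'.Perm (idx m)`,
`Y0.filter nz = pr (stQ Q ++ st3 Q)`.  COUNT: let `j < 3` and let `k` be a copy with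
`cv s (rl e j) k = true`.  By `cov` and THX `w.flatMap (pj j k) = pl P ++ (0 :: (zz h ++ 0 :: C))`, `C`
not empty (`Q ≠ []`) and beginning with a `t`.  By PJS `(pl (stL P)).flatMap (pj j k) = pl P`; cancel:
`M.flatMap (pj j k) ++ Y0.flatMap (pj j k) = 0 :: (zz h ++ 0 :: C)`.  Let `Y1` be the part of `Y0` before
the first `t` of the copy `k`.  Comparing the first letters `t` of both sides:
`M.flatMap (pj j k) ++ Y1.flatMap (pj j k) = 0 :: (zz h ++ [0])`.  It contains exactly two letters `0`;
`M` contains at least two letters `3 j` (DCN), so `M.count (3 j) = 2` and no `3 j` is in `Y1`.  Take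
`k = 3` (CVF: all three roles go around `3`): no name stands in `Y0` before the first `t` of the copy
`3`, so `Y0 = pr (stQ Q) ++ Y` with `Y` beginning with a `t`.  `cv`: every `z_i`, `i < m`, of the
projection stands between the two `0`, and it comes from the letter `3 (7 i + k) + 2` in `M`. -/
def Fc1Stmt : Prop := ∀ (β : FIC) (P Q : List ℕ) (m : ℕ), HyE β P Q m → ∀ (s e : Bool)
  (w : List ℕ), SS β P Q m s e w → ∃ M Y : List ℕ,
    w = pl (stL P) ++ (M ++ (pr (stQ Q) ++ Y)) ∧ (∀ c ∈ M, c % 3 ≠ 1) ∧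
    M.Perm (0 :: 0 :: 3 :: 3 :: 6 :: 6 :: zz (idx m)) ∧ (∀ a l, Y = a :: l → a % 3 = 1) ∧
    Y.filter nz = pr (st3 Q) ∧ (∀ c ∈ Y, c % 3 = 0 → c = 0 ∨ c = 3 ∨ c = 6) ∧
    ∀ j < 3, ∀ k < 7, cv s (rl e j) k = true → ∀ i < m, MVD.Btw (3 * j) (3 * (7 * i + k) + 2) M

/-- FCT. The facts about the words in `SS`.
PROOF. FC1; it remains `nc`.  Let `cv s (rl e j) k = false` (so `k ≠ 3`, CVF) and suppose that all
`z_(7 i + k)`, `i < m`, are between the two `3 j` in `M`.  By CVF some role `i'` goes around `k`; let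
`3 j'` be its name (`rl e j' = i'`, MMF or CVF).  By FC1 all `z_(7 i + k)` are between the two `3 j'`.
So `M.flatMap (pj j k) = 0 :: (zz h ++ [0]) = M.flatMap (pj j' k)` with the same `h` (the order of the
copy `k` in `M`; `M` contains every name exactly twice).  By PJS (`k ≠ 3`) and since the names of `Y`
stand behind `pr (stQ Q)`, whose last letters of the copy `k` … : `Y` has no letters `≠ names` of the
copy `k`, so `w.flatMap (pj j k) = pl P ++ (0 :: (zz h ++ 0 :: (pr Q ++ 0^a)))`, `a = Y.count (3 j)`, and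
`w.flatMap (pj j' k) = pl P ++ (0 :: (zz h ++ 0 :: (pr Q ++ 0^b)))`, `b = Y.count (3 j')`.  By `cov` for
`j', k`: `(w.flatMap (pj j' k)) 0^a' ~ W 0^b'`; append `0^a`:
`(w.flatMap (pj j k)) 0^(b + a') = (w.flatMap (pj j' k)) 0^(a' + a) ~ W 0^(b' + a)`, so `Inc` holds for
`j, k`: contradiction to `cov`. -/
def FctStmt : Prop := ∀ (β : FIC) (P Q : List ℕ) (m : ℕ), HyE β P Q m → ∀ (s e : Bool)
  (w : List ℕ), SS β P Q m s e w → ∃ M Y, Fct P Q m s e w M Y

/-- BAS. The words of the pentagon are in the sets.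
PROOF. `nam`: content.  `skl`: the filtered word is `sk P Q m` (MMF).  `one`: the filtered word is the
right side.  `cov`: PJS and MMF: the projection is `pl P ++ (0 :: (zz (range m) ++ 0 :: pr Q))` =
`ww P Q (range m)` if `cv` (`Inc` with `a = b = 0`), otherwise `pl P ++ (0 :: 0 :: zz .. ++ pr Q)` or
`pl P ++ (zz .. ++ 0 :: 0 :: pr Q)`; `Inc` would give `Thr` (THX), but `m ≥ 1` and the letters of
`zz h` are `≡ 2`, a `t` is `≡ 1`: contradiction. -/
def BasStmt : Prop := ∀ (β : FIC) (P Q : List ℕ) (m : ℕ), HyE β P Q m → ∀ (s e : Bool),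
  SS β P Q m s e (uu P Q m s e)

/-- CLO. Exchange of the main block.
PROOF. Let `w` be the first word, `w2` the second.  `nam`: same content.  `skl`: `w2.filter nz =
w.filter nz` (MMF).  `one`: the filtered words are equal (the main blocks give `[3j, 3j]`).  `cov`, copy
`3`: all roles go around `3` (CVF), so by MMF `w2.flatMap (pj j 3) = w.flatMap (pj j 3)` and both sides
are true.  `k ≠ 3`: by PJS the projection of `w2` is `pl P ++ (B ++ (pr Q ++ 0^a))`,
`a = Y.count (3 j)`, where `B = 0 :: (zz (range m) ++ [0])` if `cv s2 (rl e2 j) k = true`: this is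
`ww P Q (range m) ++ 0^a`, so `Inc` (`RR.refl`); otherwise `B = 0 :: 0 :: zz ..` or `zz .. ++ [0, 0]`, `Inc`
would give `Thr` (THX): contradiction as in BAS.  (`Y` contains only names and letters of the copy
`3`: from `Y.filter nz = pr (st3 Q)`.) -/
def CloStmt : Prop := ∀ (β : FIC) (P Q : List ℕ) (m : ℕ), HyE β P Q m → ∀ (s e : Bool)
  (Y : List ℕ), (∀ c ∈ Y, c % 3 = 0 → c = 0 ∨ c = 3 ∨ c = 6) → Y.filter nz = pr (st3 Q) →
  SS β P Q m s e
    (pl (stL P) ++ (MM m s (nm e 0) (nm e 1) (nm e 2) ++ (pr (stQ Q) ++ Y))) → ∀ s2 e2 : Bool,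
  SS β P Q m s2 e2
    (pl (stL P) ++ (MM m s2 (nm e2 0) (nm e2 1) (nm e2 2) ++ (pr (stQ Q) ++ Y)))

/-! ## Geometry of the main block -/

/-- PAR. Two crossing pairs (pure lists).
PROOF. `M = A ++ a :: (G ++ a :: B)` with `a ∉ A, G, B` (count 2), the same for `b`.  `z` is in `G`
(count 1 of `z`), and in the interval of `b`; `z'` is in `G`, not in the interval of `b`; `z''` not in
`G`, in the interval of `b`.  If both `b` were in `G` then the interval of `b` would be inside `G`
(`z''`); if both were in `A` or both in `B` or one in `A` and one in `B`: `z` or `z'` gives a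
contradiction.  So exactly one `b` is in `G`, the other in `A` or in `B`, and the letters
`z', z''` separate: `G = G1 ++ b :: G2` with `G1, G2 ≠ []` containing `z'` and `z`. -/
def ParStmt : Prop := ∀ (M : List ℕ) (a b z z' z'' : ℕ), a ≠ b → M.count a = 2 → M.count b = 2 →
  M.count z = 1 → M.count z' = 1 → M.count z'' = 1 → MVD.Btw a z M → MVD.Btw b z M →
  MVD.Btw a z' M → ¬ MVD.Btw b z' M → ¬ MVD.Btw a z'' M → MVD.Btw b z'' M →
  (∃ x0 x1 x2 x3 x4, M = x0 ++ a :: (x1 ++ b :: (x2 ++ a :: (x3 ++ b :: x4))) ∧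
    z' ∈ x1 ∧ z ∈ x2 ∧ z'' ∈ x3) ∨
  (∃ x0 x1 x2 x3 x4, M = x0 ++ b :: (x1 ++ a :: (x2 ++ b :: (x3 ++ a :: x4))) ∧
    z'' ∈ x1 ∧ z ∈ x2 ∧ z' ∈ x3)

/-- SEP. The names are separated and cross.
PROOF. Two different names `a = 3 j`, `b = 3 j'`: CVF gives a copy around which both go (`3`), a copy
`k'` around which only `a` goes and a copy `k''` around which only `b` goes; `nc` gives a letter
`z'` of the copy `k'` not between the two `b`, and `z''` of the copy `k''` not between the two `a`.
PAR.  (i) Two adjacent names `x, y` of `M`: if `x = y` then nothing is between the two `x`, but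
`z_(7·0+3)` is (`m ≥ 1`); if `x ≠ y` then PAR and the counts (`M.count a = M.count b = 2`) exclude it.
(ii) Between the two `a` there is exactly one `b`. -/
def SepStmt : Prop := ∀ (P Q : List ℕ) (m : ℕ) (s e : Bool) (w M Y : List ℕ), 1 ≤ m →
  Fct P Q m s e w M Y →
  (∀ A B x y, M = A ++ x :: y :: B → ¬ (x % 3 = 0 ∧ y % 3 = 0)) ∧
  (∀ j < 3, ∀ j' < 3, j ≠ j' → ∀ A G B, M = A ++ 3 * j :: (G ++ 3 * j :: B) →
    G.count (3 * j') = 1)

/-- IM1. A word which occurs twice in `M` is one name.
PROOF. Every letter of `g` occurs twice in `M`, so it is a name, and it occurs at most once in `g`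
(count 2).  If `g` has two letters then two adjacent letters of `M` are names: SEP. -/
def Im1Stmt : Prop := ∀ (P Q : List ℕ) (m : ℕ) (s e : Bool) (w M Y : List ℕ), 1 ≤ m →
  Fct P Q m s e w M Y → ∀ a g b c : List ℕ, g ≠ [] → M = a ++ (g ++ (b ++ (g ++ c))) →
    ∃ j < 3, g = [3 * j]

/-- IM2. A factor of `M` which has a second occurrence outside and contains a letter `z`.
PROOF. `g` is a factor of `M`, so it has no letter `t`.  Every `z_E` occurs once in `M` (in `g`, so
not in `a`, `c`).  CASE 1 (second occurrence in `pl (stL P) ++ a`): it contains a `z_E`, which is in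
`pl (stL P)`, where every `z` is followed by a `t` and stands at the beginning or behind a `t`; `g` has
no `t`, so `g = [z_E]`.  CASE 2 (second occurrence in `c ++ (pr (stQ Q) ++ Y)`): the `z_E` of it is in
`pr (stQ Q) ++ Y`.  In `pr (stQ Q)` it stands behind a `t` and is followed by a `t` (`Y` is empty or
begins with a `t`) or by the end of the word: `g = [z_E]`.  In `Y`: `Y.filter nz = pr (st3 Q)`, so
between two consecutive `t` of `Y` there is one `z` and names, and `E = 7 i + 3`.  So
`g = α ++ z_E :: γ`, `α`, `γ` words of names.  Suppose `α ≠ []`, let `v` be its last letter.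
`w = X ++ (M1 ++ v :: z :: M2) ++ (Y1 ++ v :: z :: Y2)` with `M = M1 ++ v :: z :: M2`.  By `lm`
(substitution `0 ↦ v`, `1 ↦ z`, `2 ↦` the word between, context) `w ~ w''` where `w''` has `z :: v` in
the main block.  VIN: `w''` is in `SS`; FCT for `w''`: its main block is `M'' = M1 ++ z :: v :: M2`
(compare the decompositions: `pl (stL P)` is a prefix, the next `t` is the same).  All roles go around
the copy `3` (CVF), so `Btw v z M` and `Btw v z M''`; `z` occurs once, `v` twice in `M`: in `M` the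
letter `v` before `z` is the first `v`; in `M''` both letters `v` are behind `z`: contradiction.  If
`γ ≠ []`, let `v` be its first letter: `z :: v` in `M` and in `Y`, `lm` (with `0 ↦ z`, `1 ↦ v`) gives
`v :: z` in `M''`; in `M` this `v` is the second `v`, in `M''` both `v` are before `z`:
contradiction. -/
def Im2Stmt : Prop := ∀ (β : FIC) (P Q : List ℕ) (m : ℕ), HyE β P Q m → ∀ (s e : Bool)
  (w M Y : List ℕ), SS β P Q m s e w → Fct P Q m s e w M Y → ∀ a g c : List ℕ,
  M = a ++ (g ++ c) → ((∃ u v, pl (stL P) ++ a = u ++ (g ++ v)) ∨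
    (∃ u v, c ++ (pr (stQ Q) ++ Y) = u ++ (g ++ v))) → ∀ E, 3 * E + 2 ∈ g → g = [3 * E + 2]

/-- IM3. Counting.
PROOF. Let `U0, U, U1` be the words of MMF for the role `i` with `f (nm e i) = [3 j]` (`hn`).  Then
`M = (a ++ U0.flatMap f) ++ 3j :: (U.flatMap f ++ 3j :: (U1.flatMap f ++ c))`.  `Fct.cv`: for the four
copies `k` around which the name `3 j` goes in `w` all `z_(7 i + k)`, `i < m`, are in `G = U.flatMap f`
(they are between the two `3 j`, count 2 of `3 j`, count 1 of `z`): `G` contains at least `4 m`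
letters `z`.  By `hz` the image of a letter `z` of `U` contains at most one letter `z` (if it contains
one it is this letter), the image of a name contains none (`hn`).  `U` has `4 m` letters `z`, so
every letter `z` of `U` has an image `[3 E' + 2]`.  By SEP `G.count (3 j') = 1` for the other two names,
and these letters come from the images of the other two names in `U` (each once in `U`, each image
has at most one letter), so both images are not empty.  Now apply this to each of the three
names; by MMF and CVF every `z_E`, `E < 7 m`, is in one of the three words `U`. -/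
def Im3Stmt : Prop := ∀ (P Q : List ℕ) (m : ℕ) (s' e' : Bool) (w M Y : List ℕ), 1 ≤ m →
  Fct P Q m s' e' w M Y → ∀ (s e : Bool) (f : ℕ → List ℕ) (a c : List ℕ),
  M = a ++ ((MM m s (nm e 0) (nm e 1) (nm e 2)).flatMap f ++ c) →
  (∀ i < 3, f (3 * i) = [] ∨ ∃ j < 3, f (3 * i) = [3 * j]) →
  (∀ E < 7 * m, ∀ E', 3 * E' + 2 ∈ f (3 * E + 2) → f (3 * E + 2) = [3 * E' + 2]) →
  (∃ i < 3, f (3 * i) ≠ []) →
    (∀ i < 3, ∃ j < 3, f (3 * i) = [3 * j]) ∧ ∀ E < 7 * m, ∃ E', f (3 * E + 2) = [3 * E' + 2]

/-- IM4. The letters `z` are fixed and the main block is the image.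
PROOF. The letters of `F = (MM ..).flatMap f` are `6 + 7 m` letters, as many as `M` (`Fct.pM`, MMF), so
`a = c = []` and `M = F`; the letters `z` of `M` are different (`pM`, `idx` without repetitions), so the
map `E ↦ E'`, `f (z_E) = [z_E']`, is injective.  Left places: `p ++ (pl (stL P)).flatMap f =
pl (stL P)`.  Take the letters `z` on both sides: the list of the `E'`, `E` in `stL P`, is a
sublist (`List.Sublist`) of `stL P` and has the same length, so it is equal: `E' = E` for `E` in
`stL P`.  In the same way for `(pr (stQ Q) ++ pr (st3 Q)).flatMap f ++ q = pr (stQ Q) ++ Y` (letters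
`z`: `stQ Q ++ st3 Q`).  Every `E < 7 m` is in `stL P` or in `stQ Q ++ st3 Q` (PJS). -/
def Im4Stmt : Prop := ∀ (P Q : List ℕ) (m : ℕ) (s' e' : Bool) (w M Y : List ℕ),
  (P ++ Q).Perm (List.range m) → Fct P Q m s' e' w M Y → ∀ (s e : Bool) (f : ℕ → List ℕ)
  (a c p q : List ℕ), M = a ++ ((MM m s (nm e 0) (nm e 1) (nm e 2)).flatMap f ++ c) →
  p ++ (pl (stL P)).flatMap f = pl (stL P) ++ a →
  (pr (stQ Q) ++ pr (st3 Q)).flatMap f ++ q = c ++ (pr (stQ Q) ++ Y) →
  (∀ i < 3, ∃ j < 3, f (3 * i) = [3 * j]) → (∀ E < 7 * m, ∃ E', f (3 * E + 2) = [3 * E' + 2]) →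
    a = [] ∧ c = [] ∧ ∀ E < 7 * m, f (3 * E + 2) = [3 * E + 2]

/-- IM5. The pattern and the names.
PROOF. `f` maps the letters of `MM m s ..` one to one: `M = (MM m s (nm e 0) (nm e 1) (nm e 2)).flatMap f`
contains every name twice, so the three images `f (nm e i)` are different; define `g i` by
`f (nm e i) = [3 (g i)]`.  In `M` the name `3 (g i)` has exactly the letters of the copies `k` with
`cv s i k` between its two occurrences (MMF).  By `Fct.cv` for all `j < 3`, `k < 7` with
`cv s' (rl e' j) k = true` the letters of the copy `k` are between the two `3 j` in `M`, so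
`cv s i k = true` for the `i` with `g i = j`.  `g` is a permutation of `{0, 1, 2}`; the role `2` goes
around `6`, which is the only role with this property, the role `0` is the only one which goes around
`0`; so `g 2 = 2`… : check the finitely many possibilities (`g` a permutation, `s, s', e, e'`):
`s = s'` and `3 (g i) = nm e' i` for all `i`. -/
def Im5Stmt : Prop := ∀ (P Q : List ℕ) (m : ℕ) (s' e' : Bool) (w M Y : List ℕ), 1 ≤ m →
  Fct P Q m s' e' w M Y → ∀ (s e : Bool) (f : ℕ → List ℕ),
  M = (MM m s (nm e 0) (nm e 1) (nm e 2)).flatMap f → (∀ i < 3, ∃ j < 3, f (3 * i) = [3 * j]) →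
  (∀ E < 7 * m, f (3 * E + 2) = [3 * E + 2]) → s = s' ∧ ∀ i < 3, f (nm e i) = [nm e' i]

/-! ## Steps -/

/-- FCX. Location of a factor without `t` (pure lists).
PROOF. `List.append_eq_append_iff` twice.  If `F` begins in `X` and does not end in `X` then it contains
the last letter of `X`, a `t`; if `F` begins in `M` (or at its beginning) and does not end in `M` then it
contains the first letter of `Y`, a `t`. -/
def FcxStmt : Prop := ∀ X M Y A F B : List ℕ, F ≠ [] → (∀ c ∈ F, c % 3 ≠ 1) →
  (∀ a l, X = l ++ [a] → a % 3 = 1) → (∀ a l, Y = a :: l → a % 3 = 1) →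
  X ++ (M ++ Y) = A ++ (F ++ B) →
    (∃ X', X = A ++ (F ++ X')) ∨ (∃ a c, M = a ++ (F ++ c) ∧ A = X ++ a ∧ B = c ++ Y) ∨
      (∃ Y', Y = Y' ++ (F ++ B) ∧ A = X ++ (M ++ Y'))

/-- OSP. Rearrangement of a factor by `OS`.
PROOF. Induction on `F.Perm F'` for all `A, B`.  `cons x`: take `A ++ [x]` instead of `A` (the
condition on the letters with less than two occurrences in `A` remains true).  `swap x y l`: one of
the letters `x`, `y` occurs twice in `A` (at most one letter of `F` occurs less than twice), the other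
occurs in `A`: `OS` or its symmetric form.  `trans`: the conditions are invariant under permutation. -/
def OspStmt : Prop := ∀ β : FIC, OS β → ∀ F F' : List ℕ, F.Perm F' → ∀ A B : List ℕ,
  (∀ c ∈ F, c ∈ A) → (F.filter (fun c => decide (A.count c < 2))).length ≤ 1 →
    RR β (A ++ (F ++ B)) (A ++ (F' ++ B))

/-- OST. A step right of the main block.
PROOF. `F` is a factor without `t` of `pr (stQ Q) ++ Y`.  Between two letters `t` of `pr (stQ Q) ++ Y`
(and behind the last one) there is exactly one letter `z`, the other letters are names.  So `F` consists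
of names and at most one `z`; all its letters occur in `M`, the names twice.  OSP with
`A = pl (stL P) ++ (M ++ Y')`. -/
def OstStmt : Prop := ∀ (β : FIC) (P Q : List ℕ) (m : ℕ), HyE β P Q m → ∀ (s e : Bool)
  (w M Y : List ℕ), Fct P Q m s e w M Y → ∀ Y' F F' B : List ℕ, (∀ c ∈ F, c % 3 ≠ 1) →
  pr (stQ Q) ++ Y = Y' ++ (F ++ B) → F.Perm F' →
    RR β w (pl (stL P) ++ (M ++ (Y' ++ (F' ++ B))))

/-- KEY. Substitution instances of the words of the pentagon in the sets.
PROOF. Let `w = p ++ ((uu P Q m s e).flatMap f ++ q)`, `F = (MM m s ..).flatMap f`,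
`A = p ++ (pl (stL P)).flatMap f`, `B = (pr (stQ Q) ++ pr (st3 Q)).flatMap f ++ q`, so
`w = A ++ (F ++ B)`; for `s2, e2` the word is `w2 = A ++ (F2 ++ B)`, `F2 = (MM m s2 ..).flatMap f`,
`F.Perm F2` (MMF).  FCT: `Fct P Q m s' e' w M Y`.  (0) If `f 0 = f 3 = f 6 = []` then `F = F2`
(`= (zz (idx m)).flatMap f`, MMF: the words without names are equal): first alternative, `RR.refl`.
Let `f (3 i) ≠ []` for some `i < 3`.  (1) Every letter of `MM` occurs at least twice in `uu`, so every
letter of `F` occurs at least twice in `w`; the letters `t` occur once in `w`: `F` has no `t`.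
(2) FCX with `X = pl (stL P)` (empty or ends with a `t`), `Y := pr (stQ Q) ++ Y` (empty or begins
with a `t`): (a) `F` in `pl (stL P)`: `F` has at least two letters (`f (3 i)` twice), and two adjacent
letters of `pl (stL P)` contain a `t`: impossible.  (b) `F` in `pr (stQ Q) ++ Y`: OST: first alternative.
(c) `M = a ++ (F ++ c)`, `A = pl (stL P) ++ a`, `B = c ++ (pr (stQ Q) ++ Y)`.  IM1: `f (3 i)` occurs
twice in `F` (MMF: `nm e i' ` twice in `MM`), so it is `[]` or one name.  IM2: for `E < 7 m` the word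
`f (z_E)` is a factor of `F` and occurs also in `(pl (stL P)).flatMap f` (if `E` in `stL P`), a factor of
`pl (stL P) ++ a`, or in `(pr (stQ Q) ++ pr (st3 Q)).flatMap f`, a factor of `c ++ (pr (stQ Q) ++ Y)`
(apply IM2 with the factor `g = f (z_E)` of `M`, its left part in `M` is `a ++ ..`: `pl (stL P) ++ a` is a
prefix of `pl (stL P) ++ a ++ ..`; its right part is `.. ++ c`).  So IM3, IM4, IM5: `a = c = []`,
`s = s'`, `f (nm e i) = [nm e' i]`, `f (z_E) = [z_E]`.  So `A = pl (stL P)`, `B = pr (stQ Q) ++ Y`, and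
`F2 = MM m s2 (nm (xor e2 (xor e e')) 0) ..` (check the four cases of `e2`, `e`).  CLO (with `M = MM m s'
(nm e' 0) ..`): `w2` is in `SS β P Q m s2 (xor e2 (xor e e'))`. -/
def KeyStmt : Prop := ∀ (β : FIC) (P Q : List ℕ) (m : ℕ), HyE β P Q m → ∀ (s e s' e' : Bool)
  (f : ℕ → List ℕ) (p q : List ℕ), SS β P Q m s' e' (p ++ ((uu P Q m s e).flatMap f ++ q)) →
    (∀ s2 e2 : Bool, RR β (p ++ ((uu P Q m s e).flatMap f ++ q))
      (p ++ ((uu P Q m s2 e2).flatMap f ++ q))) ∨
    (s = s' ∧ ∀ s2 e2 : Bool, SS β P Q m s2 (xor e2 (xor e e'))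
      (p ++ ((uu P Q m s2 e2).flatMap f ++ q)))

/-- N2E. THE PENTAGON.
PROOF. Suppose not: `HyE β P Q m`.  `a = uu false false`, `a' = uu false true`, `b = uu true false`,
`b' = uu true true`; `Sa = SS false false`, `Sb = SS true false`, `Sb' = SS true true`.
`σ = gaml (Sa ∪ Sb)`, `τ = gaml (Sb ∪ Sb')`, `ρ = FIC.inf τ (gaml Sb)`.  VIN: `β ≤` all three
(`le_gaml`).  (1) `RR ρ a a'`: by `RR_gaml` (both directions) and KEY: an instance of `a` or `a'`
(`s = false`) in `Sb` or `Sb'` (`s' = true`) is in the first alternative, the two words are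
equivalent modulo `β`, VIN.  (2) `RR τ b b'`: instance of `b` (`e = false`) in `SS true e'`: second
alternative: the other word is in `SS true (xor true (xor false e'))`, in `Sb ∪ Sb'`; in the same way
for `b'`.  (3) `RR σ b a` and `RR σ a' b'`: instance of `b` or `a` (`e = false`) in `SS s' false`:
`xor false (xor false false) = false`; instance of `a'` or `b'` (`e = true`) in `SS s' false`:
`xor true (xor true false) = false`.  (4) `SS s e` and `SS s1 e1` are disjoint for `(s, e) ≠ (s1, e1)`:
`cov` and CVF.  (5) `pent` with `P = Sb`, `u = b`, `v = b'`: `b σ a ρ a' σ b'`, `RR τ b b'`; `ρ` keeps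
`Sb` (`gaml_keep`); if `RR σ u v`, `RR τ u v`, `u ∈ Sb`, then `v ∈ Sa ∪ Sb` and `v ∈ Sb ∪ Sb'`, so
`v ∈ Sb` by (4).  So `b'` is in `Sb`; by BAS `b'` is in `Sb'`: contradiction to (4). -/
def N2eStmt : Prop := ∀ β : FIC, ModF β → Iso3 β → OS β → O1 β → O2 β → Lm β →
  ∀ (P Q : List ℕ) (m : ℕ), 1 ≤ m → (P ++ Q).Perm (List.range m) →
  (∃ n, 1 ≤ n ∧ RR β (ww P Q (List.range m)) (ww P Q (List.range m) ++ List.replicate n 0)) →
    ∃ w', RR β (ww P Q (List.range m)) w' ∧ ¬ Thr P Q m w'

end Pool.Agent.MWI
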