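import Pool.Agent.MWF.Defs
import Pool.Agent.MVD.Defs

/-!
# The scheme F1L in the LR world (definitions)

Squad MWI (problem MP_23468a_al).  `β` is a fully invariant congruence, `RR β l l'` says that the
words `l`, `l'` are congruent.  Letters: the multiples of `3` are local letters (names), `3 i + 1`
is the linear letter `t_i`, `3 i + 2` is `z_i`.  `pl P`: left places `z_i t_i`, `i` in `P`; `pr Q`:
right places `t_i z_i`, `i` in `Q`.
-/

namespace Pool.Agent.MWI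

open Pool.Agent.Helper14_MV Pool.Agent.Helper2_MV Pool.Agent.MWF

/-- left places `z_i t_i` -/
def pl (P : List ℕ) : List ℕ := P.flatMap (fun i => [3 * i + 2, 3 * i + 1])

/-- right places `t_i z_i` -/
def pr (Q : List ℕ) : List ℕ := Q.flatMap (fun i => [3 * i + 1, 3 * i + 2])

/-- the linear letters `t_i` -/
def ts (L : List ℕ) : List ℕ := L.map (fun i => 3 * i + 1)

/-- the letters `z_i` -/
def zz (L : List ℕ) : List ℕ := L.map (fun i => 3 * i + 2)

/-- the word `P y z_(h 0) z_(h 1) … y Q` -/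
def ww (P Q h : List ℕ) : List ℕ := pl P ++ (0 :: (zz h ++ 0 :: pr Q))

/-- not a name -/
def nz (c : ℕ) : Bool := decide (c % 3 ≠ 0)

/-- the main block is `y z_(h 0) … y`, all other letters `y` are right of it -/
def Thr (P Q : List ℕ) (m : ℕ) (w : List ℕ) : Prop :=
  ∃ h C : List ℕ, h.Perm (List.range m) ∧ C.filter nz = pr Q ∧ (∀ c ∈ C, c % 3 = 0 → c = 0) ∧
    (∀ a l, C = a :: l → a % 3 = 1) ∧ w = pl P ++ (0 :: (zz h ++ 0 :: C))

/-- a letter `n` with two earlier occurrences commutes with a letter `z` with an earlier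
occurrence -/
def OS (β : FIC) : Prop := ∀ (A B : List ℕ) (n z : ℕ), 2 ≤ A.count n → z ∈ A →
  RR β (A ++ n :: z :: B) (A ++ z :: n :: B)

/-- words equivalent to `t x²` begin with `t` -/
def O1 (β : FIC) : Prop := ∀ v, RR β [1, 0, 0] v → ∃ v', v = 1 :: v'

/-- words equivalent to `x² t` begin with `x²` -/
def O2 (β : FIC) : Prop := ∀ v, RR β [0, 0, 1] v → ∃ v', v = 0 :: 0 :: v'

/-- `xy t xy ≈ yx t xy` -/
def Lm (β : FIC) : Prop := RR β [0, 1, 2, 0, 1] [1, 0, 2, 0, 1]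

/-- `v` is equivalent to `W = ww P Q (range m)`, up to letters `y` at the end -/
def Inc (β : FIC) (P Q : List ℕ) (m : ℕ) (v : List ℕ) : Prop := ∃ a b : ℕ,
  RR β (v ++ List.replicate a 0) (ww P Q (List.range m) ++ List.replicate b 0)

/-- the hypotheses of the proof of N2E -/
structure HyE (β : FIC) (P Q : List ℕ) (m : ℕ) : Prop where
  iso : Iso3 β
  one : 1 ≤ m
  prm : (P ++ Q).Perm (List.range m)
  os : OS β
  o1 : O1 β
  o2 : O2 β
  lm : Lm β
  ee : ∃ n, 1 ≤ n ∧ RR β (ww P Q (List.range m)) (ww P Q (List.range m) ++ List.replicate n 0)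
  th : ∀ w, RR β (ww P Q (List.range m)) w → Thr P Q m w

/-! ### seven copies -/

/-- the indices of the left places: seven copies of `P` -/
def stL (P : List ℕ) : List ℕ := (List.range 7).flatMap (fun k => P.map (fun i => 7 * i + k))

/-- the indices of the right places of the copies `0, 1, 2, 4, 5, 6` -/
def stQ (Q : List ℕ) : List ℕ := [0, 1, 2, 4, 5, 6].flatMap (fun k => Q.map (fun i => 7 * i + k))

/-- the indices of the right places of the copy `3` -/
def st3 (Q : List ℕ) : List ℕ := Q.map (fun i => 7 * i + 3)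

/-- the `k`-th copy of the chain (indices) -/
def ci (m k : ℕ) : List ℕ := (List.range m).map (fun i => 7 * i + k)

/-- the `k`-th copy of the chain -/
def cc (m k : ℕ) : List ℕ := zz (ci m k)

/-- all indices, copy after copy -/
def idx (m : ℕ) : List ℕ := (List.range 7).flatMap (ci m)

/-- the main block with the names `a, b, c`: `a` goes around the copies `0, 1, 2, 3`, `c` around
`3, 4, 5, 6`, `b` around `1, 2, 3, 4` (`s = false`) or `2, 3, 4, 5` (`s = true`) -/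
def MM (m : ℕ) (s : Bool) (a b c : ℕ) : List ℕ :=
  if s then
    a :: (cc m 0 ++ (cc m 1 ++ b :: (cc m 2 ++ c :: (cc m 3 ++ a :: (cc m 4 ++ (cc m 5 ++
      b :: (cc m 6 ++ [c])))))))
  else
    a :: (cc m 0 ++ b :: (cc m 1 ++ (cc m 2 ++ c :: (cc m 3 ++ a :: (cc m 4 ++ b :: (cc m 5 ++
      (cc m 6 ++ [c])))))))

/-- the name with the role `i` -/
def nm (e : Bool) (i : ℕ) : ℕ := if i = 0 then (if e then 3 else 0) else
  if i = 1 then (if e then 0 else 3) else 6

/-- the role of the name `3 j` -/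
def rl (e : Bool) (j : ℕ) : ℕ := if j = 0 then (if e then 1 else 0) else
  if j = 1 then (if e then 0 else 1) else 2

/-- the role `i` goes around the copy `k` -/
def cv (s : Bool) (i k : ℕ) : Bool :=
  if i = 0 then Nat.ble k 3 else if i = 2 then Nat.ble 3 k else
    if s then Nat.ble 2 k && Nat.ble k 5 else Nat.ble 1 k && Nat.ble k 4

/-- the words of the pentagon -/
def uu (P Q : List ℕ) (m : ℕ) (s e : Bool) : List ℕ :=
  pl (stL P) ++ (MM m s (nm e 0) (nm e 1) (nm e 2) ++ (pr (stQ Q) ++ pr (st3 Q)))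

/-- the word without names -/
def sk (P Q : List ℕ) (m : ℕ) : List ℕ := pl (stL P) ++ (zz (idx m) ++ (pr (stQ Q) ++ pr (st3 Q)))

/-- the projection to the name `3 j` and the `k`-th copy -/
def pj (j k : ℕ) (c : ℕ) : List ℕ :=
  if c % 3 = 0 then (if c = 3 * j then [0] else [])
  else if (c / 3) % 7 = k then [3 * (c / 3 / 7) + c % 3] else []

/-- the sets of the pentagon -/
structure SS (β : FIC) (P Q : List ℕ) (m : ℕ) (s e : Bool) (w : List ℕ) : Prop where
  nam : ∀ c ∈ w, c % 3 = 0 → c = 0 ∨ c = 3 ∨ c = 6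
  skl : RR β (w.filter nz) (sk P Q m)
  one : ∀ j < 3, RR β (w.filter (fun c => decide (c = 3 * j ∨ c % 3 = 1)))
    (ts (stL P) ++ 3 * j :: 3 * j :: (ts (stQ Q) ++ ts (st3 Q)))
  cov : ∀ j < 3, ∀ k < 7, (Inc β P Q m (w.flatMap (pj j k)) ↔ cv s (rl e j) k = true)

/-- the facts about the words in `SS` -/
structure Fct (P Q : List ℕ) (m : ℕ) (s e : Bool) (w M Y : List ℕ) : Prop where
  eq : w = pl (stL P) ++ (M ++ (pr (stQ Q) ++ Y))
  tM : ∀ c ∈ M, c % 3 ≠ 1
  pM : M.Perm (0 :: 0 :: 3 :: 3 :: 6 :: 6 :: zz (idx m))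
  hY : ∀ a l, Y = a :: l → a % 3 = 1
  fY : Y.filter nz = pr (st3 Q)
  nY : ∀ c ∈ Y, c % 3 = 0 → c = 0 ∨ c = 3 ∨ c = 6
  cv : ∀ j < 3, ∀ k < 7, cv s (rl e j) k = true → ∀ i < m,
    MVD.Btw (3 * j) (3 * (7 * i + k) + 2) M
  nc : ∀ j < 3, ∀ k < 7, Pool.Agent.MWI.cv s (rl e j) k = false → ∃ i < m,
    ¬ MVD.Btw (3 * j) (3 * (7 * i + k) + 2) M

/-! ### the scheme F1L -/

/-- `y x c y` with isolated places: `F1L` for chains of length `k + 2`, that is
`P y z_0 … y Q ≈ P z_0 … z_(m-1) yy Q` -/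
def KQ (β : FIC) (P Q : List ℕ) (m : ℕ) : Prop :=
  RR β (ww P Q (List.range m)) (pl P ++ (zz (List.range m) ++ 0 :: 0 :: pr Q))

/-- TARGET of the squad: `y c y ≈ c y²` for distinct letters of `c` which occur outside -/
def Fd (β : FIC) : Prop := ∀ (p c q : List ℕ) (y : ℕ), c.Nodup → y ∉ c →
  (∀ a ∈ c, a ∈ p ∨ a ∈ q) → RR β (p ++ y :: (c ++ y :: q)) (p ++ (c ++ y :: y :: q))

/-- the same for words `c` of length `≤ k` -/
def Fdk (β : FIC) (k : ℕ) : Prop := ∀ (p c q : List ℕ) (y : ℕ), c.length ≤ k → c.Nodup → y ∉ c →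
  (∀ a ∈ c, a ∈ p ∨ a ∈ q) → RR β (p ++ y :: (c ++ y :: q)) (p ++ (c ++ y :: y :: q))

/-- `x² t x ≈ x² t x^(n+1)` -/
def Rn (n : ℕ) (β : FIC) : Prop := RR β [0, 0, 1, 0] ([0, 0, 1] ++ List.replicate (n + 1) 0)

/-- `x t x s x ≈ x t x s x^(n+1)` -/
def Jn (n : ℕ) (β : FIC) : Prop :=
  RR β [0, 1, 0, 4, 0] ([0, 1, 0, 4] ++ List.replicate (n + 1) 0)

/-- `x t x s x ≈ x t x^(n+1) s x^(n+1)` -/
def Kn (n : ℕ) (β : FIC) : Prop :=
  RR β [0, 1, 0, 4, 0]
    ([0, 1] ++ (List.replicate (n + 1) 0 ++ 4 :: List.replicate (n + 1) 0))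

/-- the three exchanges of the system h3: `xy t x s yy ≈ yx t x s yy`, `x t xy s yy ≈ x t yx s yy`,
`xy t xx s y ≈ yx t xx s y` -/
structure H3x (β : FIC) : Prop where
  a : RR β [0, 3, 1, 0, 4, 3, 3] [3, 0, 1, 0, 4, 3, 3]
  b : RR β [0, 1, 0, 3, 4, 3, 3] [0, 1, 3, 0, 4, 3, 3]
  c : RR β [0, 3, 1, 0, 0, 4, 3] [3, 0, 1, 0, 0, 4, 3]

end Pool.Agent.MWI
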