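import Pool.Agent.MWI.Tool

/-!
# The scheme F1L over h3, h4, h5 (statements of the rows of squad MWI, block T)

Problem MP_23468a_al.  GOAL: `FdS8 n` and `FdH3 n` (Helper61_MWD/Itr.lean): `y c y ≈ c yy` for words
`c` of distinct letters which occur outside.  `W = ww P Q (range m) = P y z_0 … z_(m-1) y Q`.
Induction on `m`: `Fdk β (m - 1)` is the scheme for shorter words.  A word `w ~ W` has the form
`bb a b P M Q`: left places `y^(a i) z_i y^(b i) t_i`, main block `M`, right places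
`t_i y^(a i) z_i y^(b i)`.  `Bd P Q w`: the main block of `w` is not `y z_(h 0) … y`.

CONVENTIONS as in StmtsE.lean: all rows can be started at once, hypotheses = column uses.
MWI/Tool.lean (imported here) has `K1`, `Pr`, `rtr`, `ctx`, `per_pow`, `per_eq'`, `k1pow`.
-/

namespace Pool.Agent.MWI

open Pool.Agent.Helper14_MV Pool.Agent.Helper2_MV Pool.Agent.MWF

/-- `c ≠ 0` -/
def ny (c : ℕ) : Bool := decide (c ≠ 0)

/-- `c` is a letter `t` -/
def it (c : ℕ) : Bool := decide (c % 3 = 1)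

/-- left places with letters `y` -/
def pA (a b : ℕ → ℕ) (P : List ℕ) : List ℕ := P.flatMap (fun i =>
  List.replicate (a i) 0 ++ (3 * i + 2) :: (List.replicate (b i) 0 ++ [3 * i + 1]))

/-- right places with letters `y` -/
def pC (a b : ℕ → ℕ) (Q : List ℕ) : List ℕ := Q.flatMap (fun i =>
  (3 * i + 1) :: (List.replicate (a i) 0 ++ (3 * i + 2) :: List.replicate (b i) 0))

/-- a word with the main block `M` -/
def bb (a b : ℕ → ℕ) (P M Q : List ℕ) : List ℕ := pA a b P ++ (M ++ pC a b Q)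

/-- the main block of `w` is not `y z_(h 0) … y` -/
def Bd (P Q w : List ℕ) : Prop := ∃ A M C : List ℕ, w = A ++ (M ++ C) ∧ A.filter it = ts P ∧
  C.filter it = ts Q ∧ (∀ c ∈ M, c % 3 ≠ 1) ∧ (∀ l a, A = l ++ [a] → a % 3 = 1) ∧
  (∀ a l, C = a :: l → a % 3 = 1) ∧ ∀ h, M ≠ 0 :: (zz h ++ [0])

/-- the standing hypotheses -/
structure Ty (n : ℕ) (β : FIC) : Prop where
  pos : 1 ≤ n
  per : Pr n β
  iso : Iso3 β
  md : ModF β
  k1 : K1 β
  rn : Rn n β
  lm : Lm β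

/-- `x² t ≈ x² t xⁿ` -/
def En (n : ℕ) (β : FIC) : Prop := RR β [0, 0, 1] ([0, 0, 1] ++ List.replicate n 0)

/-- `x t x s x ≈ x^(n+1) t x^(n+1) s x^(n+1)` -/
def Ln (n : ℕ) (β : FIC) : Prop := RR β [0, 1, 0, 4, 0]
  (List.replicate (n + 1) 0 ++ 1 :: (List.replicate (n + 1) 0 ++ 4 :: List.replicate (n + 1) 0))

/-! ## Forms of words -/

/-- DCM. Decomposition (pure lists).
PROOF. Induction on `P`: the letters before the first non-`0` letter, which is `z_i`, the letters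
`0` between it and the next non-`0` letter `t_i`, and so on (`List.filter_eq_cons_iff`); `a i`, `b i` are
the numbers of these letters (`i` occurs once in `P ++ Q`, so the function can be changed at `i`).
Right side: `Q` from the right end, or: `M` = the part before the first `t` of the rest (everything
if there is none), then induction on `Q`. -/
def DcmStmt : Prop := ∀ (P Q h w : List ℕ) (m : ℕ), (P ++ Q).Perm (List.range m) →
  w.filter ny = pl P ++ (zz h ++ pr Q) →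
    ∃ (a b : ℕ → ℕ) (M : List ℕ), w = bb a b P M Q ∧ M.filter ny = zz h

/-- WDC. The words equivalent to `W`.
PROOF. `RR.filter ny`: `w.filter ny ~ pl P ++ (zz (range m) ++ pr Q)`; SKE with `D = range m`; DCM. -/
def WdcStmt : Prop := ∀ β : FIC, Iso3 β → ∀ (P Q : List ℕ) (m : ℕ), (P ++ Q).Perm (List.range m) →
  ∀ w, RR β (ww P Q (List.range m)) w → ∃ (a b : ℕ → ℕ) (M h : List ℕ), h.Perm (List.range m) ∧
    w = bb a b P M Q ∧ M.filter ny = zz h

/-- GAT. In every place block the letters `y` can be made adjacent.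
PROOF. `K1`: `y z y ~ z y y` for `z` with another occurrence (in `M`).  So `y^(a i) z_i y^(b i) ~
z_i y^(a i + b i)` if `b i ≥ 1` (move the letters `y` one by one, `k1pow` of Tool.lean).  Take
`a' i = if b i = 0 then a i else 0`, `b' i = if b i = 0 then 0 else a i + b i`.  Do the blocks one after
another (induction on `P` and on `Q` in a context which contains `M`). -/
def GatStmt : Prop := ∀ β : FIC, K1 β → ∀ (a b : ℕ → ℕ) (P M Q : List ℕ),
  (∀ i ∈ P ++ Q, 3 * i + 2 ∈ M) → ∃ a' b' : ℕ → ℕ, (∀ i, a' i = 0 ∨ b' i = 0) ∧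
    (∀ i, a' i + b' i = a i + b i) ∧ RR β (bb a b P M Q) (bb a' b' P M Q)

/-- PSI. THE SUBSTITUTION TRICK: if in every block of `w ~ W` the letters `y` are adjacent then all
letters `y` outside of the main block can be removed.
PROOF. Project to `0` and the letters `t`: `v1 ~ v0`, where `v1` is the projection of
`w = bb a b P (zz h1 ++ 0^k ++ zz h2) Q` and `v0 = ts P ++ 0 :: 0 :: ts Q`.  Now put the letters `z` back
on both sides by substitutions `t ↦ .. t ..` (every `t` occurs once in `v0` and in `v1`) or by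
multiplication: `z_i`, `i` in `P`: if `b i = 0` (block `y^a z t_i`): `t_i ↦ z_i t_i`; if `b i > 0`, so
`a i = 0` (block `z y^b t_i`): `t' ↦ t' z_i` for the letter `t'` before this block, or multiply by
`z_i` on the left if it is the first block.  Main block: `t' ↦ t' zz h1` for the last left `t'` (or
multiply on the left), `t'' ↦ zz h2 t''` for the first right `t''` (or multiply on the right).
`z_i`, `i` in `Q` (block `t_i y^a z y^b`): if `a i = 0`: `t_i ↦ t_i z_i`; if `b i = 0`: `t'' ↦ z_i t''` for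
the next letter `t''` (or multiply on the right).  This turns `v1` into `w` and `v0` into
`pl P ++ (zz h1 ++ 0 :: 0 :: (zz h2 ++ pr Q))`.  (Induction on `P` and `Q`; if `a i = b i = 0` both
ways are possible.) -/
def PsiStmt : Prop := ∀ (β : FIC) (a b : ℕ → ℕ) (P Q h1 h2 : List ℕ) (m k : ℕ),
  (P ++ Q).Perm (List.range m) → (h1 ++ h2).Perm (List.range m) → (∀ i, a i = 0 ∨ b i = 0) →
  RR β (ww P Q (List.range m)) (bb a b P (zz h1 ++ (List.replicate k 0 ++ zz h2)) Q) →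
    RR β (ww P Q (List.range m)) (pl P ++ (zz h1 ++ 0 :: 0 :: (zz h2 ++ pr Q)))

/-- GMN. The letters `y` of the main block can be made adjacent.
PROOF. (1) If between any two consecutive letters `0` of `M` there are at most `m - 1` letters, then
`Fdk β (m - 1)` (`0 c 0 ~ c 0 0`) moves the first group of letters `0` to the next one: induction on
the number of groups.  (2) Otherwise all `m` letters `zz h` are between two consecutive `0`:
`M = 0^a ++ (zz h ++ 0^b)`, `a, b ≥ 1`, `(a, b) ≠ (1, 1)`.  If `b = 1`, `a ≥ 2`: `Rn` in context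
(`0 0 (zz h) 0 ~ 0 0 (zz h) 0^(n+1)`, substitution `1 ↦ zz h`) makes `b = n + 1 ≥ 2`.  If `b ≥ 2` and
`m ≥ 2`: `K1` for the last letter `z` of `zz h`: `z 0 0 ~ 0 z 0`; now (1) applies (distances `m - 1`
and `1`).  If `m = 1`: `z 0 0 ~ 0 z 0` read from right to left gives adjacent letters directly. -/
def GmnStmt : Prop := ∀ (n : ℕ) (β : FIC), Ty n β → ∀ (m : ℕ) (h M A C : List ℕ), 1 ≤ m →
  Fdk β (m - 1) → h.Perm (List.range m) → M.filter ny = zz h → M ≠ 0 :: (zz h ++ [0]) →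
  (∀ i < m, 3 * i + 2 ∈ A ∨ 3 * i + 2 ∈ C) →
    ∃ (h1 h2 : List ℕ) (k : ℕ), h = h1 ++ h2 ∧
      RR β (A ++ (M ++ C)) (A ++ ((zz h1 ++ (List.replicate k 0 ++ zz h2)) ++ C))

/-- OUR. `yy` moves to the right end of the main block.
PROOF. Let `z = z_i` be a letter of `zz h2`.  Project the hypothesis to `0`, `z_i`, `t_i`: for `i` in `P`:
`[z, t, 0, z, 0] ~ [z, t, 0, 0, z]`; with `K1` (`0 z 0 ~ z 0 0`): `z t 0 0 z ~ z t z 0 0`; multiply and
substitute for `t`: `p 0 0 z q ~ p z 0 0 q` for all `p` with `z ∈ p`.  For `i` in `Q`: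
`[0, z, 0, t, z] ~ [0, 0, z, t, z]`, so `p 0 0 z q ~ p z 0 0 q` for all `q` with `z ∈ q`.  In
`pl P ++ (zz h1 ++ 0 :: 0 :: (zz h2 ++ pr Q))` move `0 0` over the letters of `zz h2` one after
another. -/
def OurStmt : Prop := ∀ β : FIC, K1 β → ∀ (P Q h1 h2 : List ℕ) (m : ℕ),
  (P ++ Q).Perm (List.range m) → (h1 ++ h2).Perm (List.range m) →
  RR β (ww P Q (List.range m)) (pl P ++ (zz h1 ++ 0 :: 0 :: (zz h2 ++ pr Q))) →
    RR β (ww P Q (List.range m)) (pl P ++ (zz (h1 ++ h2) ++ 0 :: 0 :: pr Q))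

/-- PRM. The order of the letters `z`.
PROOF. Erase `0` in the hypothesis: `pl P ++ (zz (range m) ++ pr Q) ~ pl P ++ (zz h ++ pr Q)`.  If
`Q = q :: Q'` substitute `t_q ↦ 0 0 t_q`, if `Q = []` multiply by `0 0` on the right:
`pl P ++ (zz (range m) ++ 0 :: 0 :: pr Q) ~ pl P ++ (zz h ++ 0 :: 0 :: pr Q) ~ W`. -/
def PrmStmt : Prop := ∀ (β : FIC) (P Q h : List ℕ) (m : ℕ), (P ++ Q).Perm (List.range m) →
  RR β (ww P Q (List.range m)) (pl P ++ (zz h ++ 0 :: 0 :: pr Q)) → KQ β P Q m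

/-- KQA. A word `w ~ W` with a bad main block gives the scheme.
PROOF. WDC: `w = bb a b P M Q`, `M.filter ny = zz h`, `h.Perm (range m)`.  `Bd`: `w = A ++ (M' ++ C)`;
comparing the letters `t` (each once, those of `P` before those of `Q`, none in `M`, `M'`;
`pA a b P` is empty or ends with a `t`, `pC a b Q` is empty or begins with a `t`) gives `M' = M`.  So
`M ≠ 0 :: (zz h ++ [0])`.  GMN (`A = pA a b P`, `C = pC a b Q`):
`w ~ bb a b P (zz h1 ++ (0^k ++ zz h2)) Q`; GAT, PSI, OUR, PRM. -/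
def KqaStmt : Prop := ∀ (n : ℕ) (β : FIC), Ty n β → ∀ (P Q : List ℕ) (m : ℕ), 1 ≤ m →
  (P ++ Q).Perm (List.range m) → Fdk β (m - 1) →
    ∀ w, RR β (ww P Q (List.range m)) w → Bd P Q w → KQ β P Q m

/-! ## The first word -/

/-- Lemma N2 of helper11 (proved: `Pool.Agent.MWD.H11.n2tF`, Helper11_MWD/FIN3.lean; it is a
hypothesis of the row N2C, supplied in the assembly) -/
def N2tStmt : Prop := ∀ β : FIC, ModF β → Iso3 β → ∀ (P Q : List ℕ) (m : ℕ), 1 ≤ m →
  (P ++ Q).Perm (List.range m) →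
    ∃ w', RR β (MVD.bw P Q m) w' ∧ ¬ (w'.count 0 = 2 ∧ ∀ e < m, MVD.Btw 0 (3 * e + 1) w')

/-- N2C. Lemma N2 in our coding; `theorem n2c (h : N2tStmt) : N2cStmt`.
PROOF. `N2tStmt` for `MVD.bw P Q m`
`= P.flatMap (fun e => [3e+1, 3e+5]) ++ 0 :: zs (range m) ++ 0 :: 2 :: Q.flatMap (fun e => [3e+1, 3e+5])`.  Substitution `g`: `0 ↦ 0`, `3e+1 ↦ 3e+2` (`e < m`), separators: for `i` in
`P`: `3i+5 ↦ 3i+1`; `2 ↦ t_q` (`q` = head of `Q`, `2 ↦ []` if `Q = []`); for `i` in `Q`: `3i+5 ↦ t_j` where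
`j` follows `i` in `Q`, `3i+5 ↦ []` if `i` is the last.  Then `(MVD.bw P Q m).flatMap g =
ww P Q (range m)` (induction on `Q`).  The letter `0` and the letters `3e+1` are mapped to single
letters and no other letter is mapped to a word containing them, so `w'.count 0` is kept, and
`Btw 0 (3e+2) (w'.flatMap g)` implies `Btw 0 (3e+1) w'` (the content of `w'` is that of `bw`). -/
def N2cStmt : Prop := ∀ β : FIC, ModF β → Iso3 β → ∀ (P Q : List ℕ) (m : ℕ), 1 ≤ m →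
  (P ++ Q).Perm (List.range m) → ∃ w, RR β (ww P Q (List.range m)) w ∧
    ¬ (w.count 0 = 2 ∧ ∀ e < m, MVD.Btw 0 (3 * e + 2) w)

/-- FST. A bad main block or letters `y` outside.
PROOF. N2C and WDC: `w = bb a b P M Q`.  If the main block `M` is not of the form `0 :: (zz h' ++ [0])`:
`Bd` (`A = pA a b P`, `C = pC a b Q`).  Otherwise `M = 0 :: (zz h ++ [0])` with `h.Perm (range m)`; if all
`a i = b i = 0` for `i` in `P ++ Q` then `w = pl P ++ (0 :: (zz h ++ 0 :: pr Q))`, the number of `0` is `2`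
and every `z_e` is between them: contradiction. -/
def FstStmt : Prop := ∀ β : FIC, ModF β → Iso3 β → ∀ (P Q : List ℕ) (m : ℕ), 1 ≤ m →
  (P ++ Q).Perm (List.range m) → (∃ w, RR β (ww P Q (List.range m)) w ∧ Bd P Q w) ∨
    ∃ (a b : ℕ → ℕ) (h : List ℕ), h.Perm (List.range m) ∧
      RR β (ww P Q (List.range m)) (bb a b P (0 :: (zz h ++ [0])) Q) ∧ ∃ i ∈ P ++ Q, a i + b i ≠ 0

/-- WLF. Letters `y` on the left; `Jn`, `Kn` or `Ln`.
PROOF. `pA a b P = A1 ++ 0 :: A2`.  The word is `A1 ++ 0 :: (A2 ++ 0 :: (zz h ++ 0 :: C))`: substitute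
`0 ↦ 0`, `1 ↦ A2`, `4 ↦ zz h` in `Jn`, `Kn` or `Ln`, multiply by `A1` and `C`: the last `0` of the main
block becomes `0^(n+1)` and the main block has at least three letters `0`: `Bd`.  (`A2 ≠ []` ends with
a `t`.) -/
def WlfStmt : Prop := ∀ (n : ℕ) (β : FIC), Ty n β → (Jn n β ∨ Kn n β ∨ Ln n β) →
  ∀ (a b : ℕ → ℕ) (P Q h : List ℕ) (m : ℕ), (P ++ Q).Perm (List.range m) →
    (∃ i ∈ P, a i + b i ≠ 0) → ∃ w, RR β (bb a b P (0 :: (zz h ++ [0])) Q) w ∧ Bd P Q w

/-- WRT. Letters `y` on the right; `Kn` or `Ln`.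
PROOF. `pC a b Q = C1 ++ 0 :: C2`, `C1 ≠ []` begins with a `t`.  The word is
`A ++ 0 :: (zz h ++ 0 :: (C1 ++ 0 :: C2))`: substitute `1 ↦ zz h`, `4 ↦ C1`: the second `0` of the main
block becomes `0^(n+1)`: `Bd`. -/
def WrtStmt : Prop := ∀ (n : ℕ) (β : FIC), Ty n β → (Kn n β ∨ Ln n β) →
  ∀ (a b : ℕ → ℕ) (P Q h : List ℕ) (m : ℕ), (P ++ Q).Perm (List.range m) →
    (∃ i ∈ Q, a i + b i ≠ 0) → ∃ w, RR β (bb a b P (0 :: (zz h ++ [0])) Q) w ∧ Bd P Q w

/-! ## The case `Jn` with letters `y` on the right -/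

/-- EN1. PROOF. Iterate: `x² t ~ x² t x^(r j)` for all `j`.  `n ≥ 2`: `j = n`: `x^(r n) ~ x^n` by `per`
(`per_eq'` of Tool.lean).  `n = 1`: `x^r ~ x²` if `r ≥ 2`, and `x² t x ~ x² t x²` by `Rn`; if `r = 1` done. -/
def En1Stmt : Prop := ∀ (n : ℕ) (β : FIC), Ty n β → ∀ r, 1 ≤ r →
  RR β [0, 0, 1] ([0, 0, 1] ++ List.replicate r 0) → En n β

/-- OSJ. PROOF. Let `l` (the letter `n` of `OS`, called `l` here) occur twice in `A`: `A = A0 l A1 l A2`.
`Jn` in context (`1 ↦ A1`, `4 ↦ A2 ..`): in `A ++ l :: ..` the third `l` may be replaced by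
`l^(n+1)` and back.  If `l = z` nothing to prove.  `A l z B ~ A l^(n+1) z B ~ A l^(n+1) z l^n B` (`En` in
context: `l l u ~ l l u l^n`, `n + 1 ≥ 2`).  `A z l B ~ A z l^(n+1) B` (`Jn` with `4 ↦ A2 z`)
`~ A l z l^n B` (`K1`, `z ∈ A`) `~ A l^(n+1) z l^n B` (`Jn` for the first of these `l`). -/
def OsjStmt : Prop := ∀ (n : ℕ) (β : FIC), Ty n β → Jn n β → En n β → OS β

/-- NO1. PROOF. `v ~ t x²` (`t = 1`, `x = 0`) does not begin with `t`; by content and `Iso3` (`t` occurs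
once) `v = x^a t x^b`, `a ≥ 1`.  `(a, b) ≠ (1, 1)` (`xtx` is an isoterm) and `(a, b) ≠ (1, 0)`
(erase `t`: `x² ~ x` contradicts `Iso3`: `xtx ~ x²tx`).  So `a ≥ 2` or `b ≥ 2`.  (i) WLOG `b ≥ 2`: if
`b = 1`: `a ≥ 2`, `Rn`: `x^a t x ~ x^a t x^(n+1)`.  If `b = 0`: multiply by `x^n` on the right:
`t x² ~ t x^(n+2) ~ x^a t x^n`, and `n ≥ 2` or (`n = 1`, `Rn`) `x^a t x ~ x^a t x²`.  (ii) `b ≥ 2`:
`t x² ~ x^(j a) t x^(2 + j (b - 2))` for all `j` (induction); `j = 2 n`: `x^(2 + 2n(b-2)) ~ x²`.  Take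
`k = 2 n a`. -/
def No1Stmt : Prop := ∀ (n : ℕ) (β : FIC), Ty n β → ¬ O1 β → ∃ k, 2 ≤ k ∧
  RR β [1, 0, 0] (List.replicate k 0 ++ [1, 0, 0])

/-- NO2. PROOF. `v ~ x² t` does not begin with `x²`; `v = x^a t x^b`, `a ≤ 1`.  `a = 1`: `b = 1` and `b = 0`
are excluded by `Iso3` (as in NO1); `a = 0`: `b ≤ 1` is excluded. -/
def No2Stmt : Prop := ∀ (n : ℕ) (β : FIC), Ty n β → ¬ O2 β → ∃ b, 2 ≤ b ∧
  (RR β [0, 0, 1] ([0, 1] ++ List.replicate b 0) ∨ RR β [0, 0, 1] (1 :: List.replicate b 0))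

/-- WJR. Letters `y` on the right, none on the left; `Jn`.
PROOF. `w0 = pl P ++ (0 :: (zz h ++ 0 :: C)) ~ W`, `C = pC a b Q = C1 ++ 0 :: C2`, `C1` begins with a `t`.
(1) `¬ O1`: NO1 gives `k`.  `Jn`: the third `0` becomes `0^(n+1)`, which contains `0 0`; with
`u = zz h ++ 0 :: C1` and `u 0 0 ~ 0^k u 0 0` (substitute `1 ↦ u`): `w0 ~ pl P ++ 0 :: 0^k ++ zz h ++
0 :: (C1 ++ 0^(n+1) ++ C2)`: main block with at least three `0`: `Bd`.  (2) `¬ O2`: NO2 gives `b`.  `Jn` and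
`per`: the third `0` becomes `0^(j n + 1)` with `j n + 1 ≥ b`.  First alternative: `0 u 0^b ~ 0 0 u` with the
first `0` of the main block and `u = zz h ++ 0 :: C1`: main block `0 :: 0 :: (zz h ++ [0])`: `Bd`.  Second
alternative: `u 0^b ~ 0 0 u`: main block `0 :: 0 :: 0 :: (zz h ++ [0])`: `Bd`.  (3) `O1` and `O2` hold.
`Q = q :: Q'` (`C` has letters); project `W ~ w0` to `0`, `t_q`: `[0, 0, t] ~ [0, 0, t] ++ 0^r`,
`r = C.count 0 ≥ 1`: `En` (EN1).  `OS` (OSJ).  `w0 ~ w0 0^n`: the third `0` becomes `0^(n+1)`, `En`: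
append `0^n`, and back; so `W ~ W 0^n`.  N2E: `w ~ W` with `¬ Thr P Q m w`.  WDC: `w = bb a' b' P M Q`.  By
`O1` (project to `0`, `t_i`) no `0` is before `t_i`, `i` in `P`: `pA a' b' P = pl P`.  If
`M = 0 :: (zz h' ++ [0])` then `Thr` (`C = pC a' b' Q`): contradiction.  So `Bd`. -/
def WjrStmt : Prop := ∀ (n : ℕ) (β : FIC), Ty n β → Jn n β → ∀ (a b : ℕ → ℕ) (P Q h : List ℕ)
  (m : ℕ), 1 ≤ m → (P ++ Q).Perm (List.range m) → h.Perm (List.range m) →
  RR β (ww P Q (List.range m)) (bb a b P (0 :: (zz h ++ [0])) Q) → (∀ i ∈ P, a i + b i = 0) →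
  (∃ i ∈ Q, a i + b i ≠ 0) → ∃ w, RR β (ww P Q (List.range m)) w ∧ Bd P Q w

/-! ## The case h3 -/

/-- SWP. The order of the letters `z` may be changed in all contexts.
PROOF. `Pool.Agent.MVD.H6.trc : MVD.TrcStmt` (import Pool.Agent.Helper6_MVD.TRC) with `E A B := RR β (X ++ (zz A ++ Y)) (X ++ (zz B ++ Y))`,
`I u v := ` for all `p, q` with (`3u+2 ∈ p` if `u ∈ P`, `3u+2 ∈ q` if `u ∈ Q`) and the same for `v`:
`RR β (p ++ (3u+2) :: (3v+2) :: q) (p ++ (3v+2) :: (3u+2) :: q)`.  Independent pairs: let `u` be before `v`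
in `range m` and behind `v` in `h`.  Project the hypothesis to `z_u, z_v, t_u, t_v`: e.g. `u, v ∈ P`:
`z_u t_u z_v t_v z_u z_v ~ z_u t_u z_v t_v z_v z_u` (or the places in the other order): this is
`MVD.S3 β` (letters `0, 2, 3, 5, 0, 3`) after renaming and erasing the second `t`; `u, v ∈ Q`: `MVD.S1`;
one in `P`, one in `Q`: `MVD.S2`.  `Pool.Agent.MVD.H27.ctx : MVD.CtxStmt` (import
Pool.Agent.Helper27_MVD.CTX) gives the exchange in all contexts. -/
def SwpStmt : Prop := ∀ β : FIC, Iso3 β → ∀ (P Q h X Y : List ℕ) (m : ℕ),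
  (P ++ Q).Perm (List.range m) → h.Perm (List.range m) →
  RR β (pl P ++ (zz (List.range m) ++ pr Q)) (pl P ++ (zz h ++ pr Q)) →
  (∀ i ∈ P, 3 * i + 2 ∈ X) → (∀ i ∈ Q, 3 * i + 2 ∈ Y) →
    RR β (X ++ (zz (List.range m) ++ Y)) (X ++ (zz h ++ Y))

/-- EXF. Inserting letters `y` in the place blocks by a substitution (pure lists).
PROOF. `f c = [c]` if `c` is not a `t_i`, `i` in `P ++ Q`.  `i` in `P`: `f t_i = 0^(b i) ++ t_i :: 0^(a j)`
where `j` follows `i` in `P` (nothing if `i` is the last of `P`); `p = 0^(a i)`, `i` = head of `P`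
(`p = []` if `P = []`).  `i` in `Q`: `f t_i = 0^(b j) ++ t_i :: 0^(a i)` where `j` precedes `i` in `Q`
(nothing if `i` is the first of `Q`); `q = 0^(b i)`, `i` = last of `Q`.  Check: the block
`0^(j a) z 0^(j b) t_i` becomes `0^a 0^(j a) z 0^(j b) 0^b t_i`, the block `t_i 0^(j a) z 0^(j b)` becomes
`t_i 0^a 0^(j a) z 0^(j b) 0^b`, the main block `M` is not changed. -/
def ExfStmt : Prop := ∀ (a b : ℕ → ℕ) (P Q : List ℕ), (P ++ Q).Nodup →
  ∃ (f : ℕ → List ℕ) (p q : List ℕ), ∀ (j : ℕ) (M : List ℕ), (∀ c ∈ M, c % 3 ≠ 1) →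
    p ++ ((bb (fun i => j * a i) (fun i => j * b i) P M Q).flatMap f ++ q) =
      bb (fun i => (j + 1) * a i) (fun i => (j + 1) * b i) P M Q

/-- DBL. The letters `y` outside can be multiplied.
PROOF. `V j := bb (j a) (j b) P (0 :: (zz h ++ [0])) Q`, `W ~ V 1`.  Erase `0`: the hypothesis of SWP; so
`V 1 ~ V' := bb a b P (0 :: (zz (range m) ++ [0])) Q` (`X = pA a b P ++ [0]`, `Y = 0 :: pC a b Q`).  EXF:
`F w := p ++ (w.flatMap f ++ q)`; `F W = V'` (`j = 0`, `M = 0 :: (zz (range m) ++ [0])`;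
`bb 0 0 P M Q = W`) and `F (V j) = V (j + 1)`.  If `W ~ V j` then `V' = F W ~ F (V j) = V (j + 1)`, so
`W ~ V 1 ~ V' ~ V (j + 1)`. -/
def DblStmt : Prop := ∀ β : FIC, Iso3 β → ∀ (a b : ℕ → ℕ) (P Q h : List ℕ) (m : ℕ),
  (P ++ Q).Perm (List.range m) → h.Perm (List.range m) →
  RR β (ww P Q (List.range m)) (bb a b P (0 :: (zz h ++ [0])) Q) → ∀ j, 1 ≤ j →
    RR β (ww P Q (List.range m))
      (bb (fun i => j * a i) (fun i => j * b i) P (0 :: (zz h ++ [0])) Q)

/-- WH3. The case h3.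
PROOF. DBL with `j = 2`: every nonempty group of letters `0` in a place block has length `≥ 2`.  Left: if
`a i + b i ≠ 0` for some `i` in `P`: `A = A1 ++ 0 :: 0 :: A2`; `Rn` in context: `0 0 A2 0 ~ 0 0 A2 0^(n+1)`:
the first `0` of the main block becomes `0^(n+1)`: `Bd`.  Right: `pC .. = C1 ++ 0 :: 0 :: C2`, `C1`
begins with a `t`.  `h = i0 :: h'` (`m ≥ 1`), `z = z_i0`.  `i0 ∈ P`: `z` is in `A`: `H3x.b` (`0 ↦ z`,
`3 ↦ 0`; words `z t z y s yy ~ z t y z s yy`) exchanges `0` and `z` at the beginning of the main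
block.  `i0 ∈ Q`, `z` in `C1`: `H3x.a` (`0 ↦ z`, `3 ↦ 0`: `z y t z s yy ~ y z t z s yy`).  `z` in `C2`:
`H3x.c` (`0 ↦ 0`, `3 ↦ z`: `y z t yy s z ~ z y t yy s z`).  The new main block begins with `z`: `Bd`. -/
def Wh3Stmt : Prop := ∀ (n : ℕ) (β : FIC), Ty n β → H3x β → ∀ (a b : ℕ → ℕ) (P Q h : List ℕ)
  (m : ℕ), 1 ≤ m → (P ++ Q).Perm (List.range m) → h.Perm (List.range m) →
  RR β (ww P Q (List.range m)) (bb a b P (0 :: (zz h ++ [0])) Q) →
  (∃ i ∈ P ++ Q, a i + b i ≠ 0) → ∃ w, RR β (ww P Q (List.range m)) w ∧ Bd P Q w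

/-! ## Assembly -/

/-- KQI. The scheme for isolated places.
PROOF. FST.  First alternative: KQA.  Second alternative: `Ln` or `Kn`: WLF or WRT, KQA.  `Jn`: WLF if
some `i` in `P` has `a i + b i ≠ 0`, otherwise WJR; KQA.  `H3x`: WH3, KQA. -/
def KqiStmt : Prop := ∀ (n : ℕ) (β : FIC), Ty n β → (Ln n β ∨ Kn n β ∨ Jn n β ∨ H3x β) →
  ∀ (P Q : List ℕ) (m : ℕ), 1 ≤ m → (P ++ Q).Perm (List.range m) → Fdk β (m - 1) → KQ β P Q m

/-- INP. Every word `p L q` is a substitution instance of a word with isolated places.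
PROOF. As `Pool.Agent.MVD.H10.inw` (Helper10_MVD/INW.lean).  Choose for the letters of `c` which occur
in `p` one occurrence in `p`, for the others one in `q`.  `p = p0 a1 g1 a2 g2 … ar gr` with the chosen
letters `a1 … ar`: `P` = their indices in `c`, `f (3 i + 2) = [c i]`, `f t_i` = the piece behind the
letter; `q = g' b1 g1' … bs q0`: `Q` = the indices, `f t_i` = the piece before the letter. -/
def InpStmt : Prop := ∀ (p q c : List ℕ) (y : ℕ), c.Nodup → (∀ a ∈ c, a ∈ p ∨ a ∈ q) →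
  ∃ (P Q : List ℕ) (f : ℕ → List ℕ) (p0 q0 : List ℕ), (P ++ Q).Perm (List.range c.length) ∧
    (∀ L : List ℕ, p ++ (L.flatMap f ++ q) = p0 ++ ((pl P ++ (L ++ pr Q)).flatMap f ++ q0)) ∧
    f 0 = [y] ∧ ∀ e < c.length, f (3 * e + 2) = [c.getD e 0]

/-- FDI. The scheme for all words.
PROOF. `Fdk β k` by induction on `k`.  `c = []` is trivial.  Let `|c| = m ≥ 1`: INP and KQI (with
`Fdk β (m - 1)`): `KQ β P Q m`; multiply by `p0`, `q0`, substitute `f`:
`(ww P Q (range m)).flatMap f` with `L = 0 :: (zz (range m) ++ [0])`, `L.flatMap f = y :: (c ++ [y])`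
(`(zz (range m)).flatMap f = c`). -/
def FdiStmt : Prop := ∀ (n : ℕ) (β : FIC), Ty n β → (Ln n β ∨ Kn n β ∨ Jn n β ∨ H3x β) →
  Fd β

end Pool.Agent.MWI
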