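import Pool.Agent.MWI.StmtsE

/-!
# Tools for block T of squad MWI (MP_23468a_al)

The definitions and lemmas are those of Helper61_MWD/Itr.lean (helper61), without its imports.
-/

set_option autoImplicit false

namespace Pool.Agent.MWI

open Pool.Agent.Helper14_MV Pool.Agent.Helper2_MV

/-- `y^a` -/
abbrev Rp (a y : ℕ) : List ℕ := List.replicate a y

/-- `p x yy q ≈ p y x y q` if `x` is a letter of `pq` -/
def K1 (β : FIC) : Prop := ∀ (p q : List ℕ) (x y : ℕ), x ≠ y → (x ∈ p ∨ x ∈ q) →
  RR β (p ++ x :: y :: y :: q) (p ++ y :: x :: y :: q)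

/-- periods -/
def Pr (n : ℕ) (β : FIC) : Prop := RR β [0, 0] (List.replicate (n + 2) 0)

variable {n : ℕ} {β : FIC}

theorem rtr {a b c : List ℕ} (h1 : RR β a b) (h2 : RR β b c) : RR β a c := β.trans h1 h2

theorem ctx (p q : List ℕ) {l l' : List ℕ} (h : RR β l l') : RR β (p ++ l ++ q) (p ++ l' ++ q) :=
  ((RR.refl p).append h).append (RR.refl q)

theorem per_pow (hp : Pr n β) (a y : ℕ) (ha : 2 ≤ a) (k : ℕ) :
    RR β (Rp a y) (Rp (a + k * n) y) := by
  induction k with
  | zero => simpa using RR.refl (β := β) (Rp a y)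
  | succ k ih =>
    refine rtr ih ?_
    obtain ⟨b, hb⟩ : ∃ b, a + k * n = b + 2 := ⟨a + k * n - 2, by omega⟩
    have h1 := hp.sub (fun _ => [y])
    have e : ∀ j : ℕ, (List.replicate j 0).flatMap (fun _ => [y]) = Rp j y := by
      intro j
      induction j with
      | zero => rfl
      | succ j ih => rw [List.replicate_succ, List.flatMap_cons, ih]; rfl
    have e2 : ([0, 0] : List ℕ) = List.replicate 2 0 := rfl
    rw [e2, e, e] at h1
    have h2 := (RR.refl (β := β) (Rp b y)).append h1
    rw [← List.replicate_add, ← List.replicate_add] at h2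
    have e3 : a + (k + 1) * n = b + (n + 2) := by
      rw [Nat.add_mul, Nat.one_mul]; omega
    rw [hb, e3]
    exact h2

theorem per_eq' (hp : Pr n β) {a b y : ℕ} (ha : 2 ≤ a) (hb : 2 ≤ b) {u v : ℕ}
    (h : a + u * n = b + v * n) : RR β (Rp a y) (Rp b y) := by
  have h1 := per_pow hp a y ha u
  have h2 := per_pow hp b y hb v
  rw [← h] at h2
  exact rtr h1 h2.symm

/-- a letter passes powers -/
theorem k1pow (hk : K1 β) (x y : ℕ) (b : ℕ) : ∀ (a : ℕ) (p q : List ℕ),
    (x ≠ y → x ∈ p ∨ x ∈ q) →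
    RR β (p ++ (x :: (Rp (a + (b + 1)) y ++ q))) (p ++ (Rp a y ++ x :: (Rp (b + 1) y ++ q))) := by
  intro a
  induction a with
  | zero =>
    intro p q _
    simpa using RR.refl (β := β) (p ++ (x :: (Rp (b + 1) y ++ q)))
  | succ a ih =>
    intro p q h
    by_cases hxy : x = y
    · subst hxy
      have e : p ++ (x :: (Rp (a + 1 + (b + 1)) x ++ q)) =
          p ++ (Rp (a + 1) x ++ x :: (Rp (b + 1) x ++ q)) := by
        congr 1
        have e1 : x :: (Rp (a + 1 + (b + 1)) x ++ q) = Rp (a + 1 + (b + 1) + 1) x ++ q := rfl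
        have e2 : Rp (a + 1) x ++ x :: (Rp (b + 1) x ++ q) =
            Rp (a + 1) x ++ (Rp (b + 1 + 1) x ++ q) := rfl
        rw [e1, e2, ← List.append_assoc, ← List.replicate_add]
        congr 2
      rw [e]
      exact RR.refl _
    have h1 := hk p (Rp (a + b) y ++ q) x y hxy (by
      rcases h hxy with h | h
      · exact Or.inl h
      · exact Or.inr (List.mem_append_right _ h))
    have e1 : p ++ x :: y :: y :: (Rp (a + b) y ++ q) =
        p ++ (x :: (Rp (a + 1 + (b + 1)) y ++ q)) := by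
      have : Rp (a + 1 + (b + 1)) y = y :: y :: Rp (a + b) y := by
        rw [show a + 1 + (b + 1) = a + b + 1 + 1 by ring]
        rfl
      rw [this]
      rfl
    have e2 : p ++ y :: x :: y :: (Rp (a + b) y ++ q) =
        (p ++ [y]) ++ (x :: (Rp (a + (b + 1)) y ++ q)) := by
      have : Rp (a + (b + 1)) y = y :: Rp (a + b) y := rfl
      rw [this]
      simp
    rw [e1, e2] at h1
    have h2 := ih (p ++ [y]) q (fun hne => by
      rcases h hne with h | h
      · exact Or.inl (List.mem_append_left _ h)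
      · exact Or.inr h)
    refine rtr h1 ?_
    have e3 : (p ++ [y]) ++ (Rp a y ++ x :: (Rp (b + 1) y ++ q)) =
        p ++ (Rp (a + 1) y ++ x :: (Rp (b + 1) y ++ q)) := by
      simp [Rp, List.replicate_succ]
    rw [e3] at h2
    exact h2

end Pool.Agent.MWI
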